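import Pool.Agent.Helper42.AC.All
import Pool.Agent.Helper33.SVv.H5
import Pool.Agent.Helper60.SVv.H4

/-!
# Almost every centre: from a centre moving with the radius, in the unit square, to every oval and almost every centre of the plane
-/

open MeasureTheory Real Set

set_option autoImplicit false

namespace Pool.Agent.Helper54.AC

open Pool.Agent.Helper22.AE (IsSupp area)
open Pool.Agent.Helper22.AC (cntc)
open Pool.Agent.Helper22.OV (shf exists_shift shf_smooth cntc_shf area_shf)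
open Pool.Agent.Helper42.AC (Fix Ev ae_plane cntc_add)

/-- from the unit square and ovals around the origin to the plane and every oval -/
theorem ae_fix_of {κ : ℝ} {m : ℕ} {k : ℕ}
    (hC : ∀ {H : ℝ → ℝ}, IsSupp H → ContDiff ℝ k H → ∀ v : ℝ × ℝ,
      ∀ᵐ c ∂(volume.restrict (Icc (0 : ℝ) 1 ×ˢ Icc (0 : ℝ) 1)), Fix (Ev H v c) κ m)
    (hk : 2 ≤ k) {H : ℝ → ℝ} (h3 : ContDiff ℝ k H) (hper : Function.Periodic H (2 * π)) (hr : ∀ t, 0 < H t + deriv (deriv H) t) :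
    ∀ᵐ c : ℝ × ℝ, Fix (fun R => |cntc H c R - area H * R ^ 2|) κ m := by
  obtain ⟨v, hv⟩ := exists_shift (h3.of_le (by exact_mod_cast hk)) hper hr
  have h1 := hC hv (shf_smooth v h3) (-v.1, -v.2)
  have h2 : ∀ c : ℝ × ℝ, Ev (shf H v) (-v.1, -v.2) c = fun R => |cntc H c R - area H * R ^ 2| := by
    intro c
    funext R
    unfold Ev
    have e : (c.1 + R * (-v.1, -v.2).1, c.2 + R * (-v.1, -v.2).2) = (c.1 - R * v.1, c.2 - R * v.2) := by
      ext <;> simp <;> ring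
    rw [e, cntc_shf, area_shf]
  simp only [h2] at h1
  refine ae_plane (fun c k hc => ?_) h1
  simp only [cntc_add]
  exact hc

/-- the blocks of Helper60.SVv in the form `Fix`: one null set for all `ε` -/
theorem ae_ev {H : ℝ → ℝ} (hH : IsSupp H) (h5 : ContDiff ℝ 5 H) (v : ℝ × ℝ) :
    ∀ᵐ c ∂(volume.restrict (Icc (0 : ℝ) 1 ×ˢ Icc (0 : ℝ) 1)), Fix (Ev H v c) (7 / 12) 14 := by
  refine Pool.Agent.Helper33.SVv.ae_fix_of ?_
  have h1 : ∀ j : ℕ, ∀ᵐ c ∂(volume.restrict (Icc (0 : ℝ) 1 ×ˢ Icc (0 : ℝ) 1)), ∃ N₀ : ℕ, ∀ N : ℕ, N₀ ≤ N →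
      (∀ R ∈ Icc ((2 : ℝ) ^ N) (2 * 2 ^ N), Ev H v c R ≤ ((2 : ℝ) ^ N) ^ (7 / 12 + 1 / ((j : ℝ) + 1))) ∧
        ∫ R in Icc ((2 : ℝ) ^ N) (2 * 2 ^ N), Ev H v c R ^ (14 : ℝ) ≤ ((2 : ℝ) ^ N) ^ (8 + 1 / ((j : ℝ) + 1)) :=
    fun j => Pool.Agent.Helper60.SVv.ae_range hH h5 v (by positivity)
  rw [← ae_all_iff] at h1
  filter_upwards [h1] with c hc ε hε
  obtain ⟨j, hj⟩ := exists_nat_one_div_lt hε
  obtain ⟨N₀, hN⟩ := hc j
  refine ⟨N₀, fun N h => ?_⟩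
  have hb : (1 : ℝ) ≤ (2 : ℝ) ^ N := one_le_pow₀ (by norm_num)
  refine ⟨fun R hR => ((hN N h).1 R hR).trans ?_, (hN N h).2.trans ?_⟩
  · exact Real.rpow_le_rpow_of_exponent_le hb (by linarith)
  · exact Real.rpow_le_rpow_of_exponent_le hb (by linarith)

/-- almost every centre, every oval -/
theorem ae_fix {H : ℝ → ℝ} (h5 : ContDiff ℝ 5 H) (hp : Function.Periodic H (2 * π))
    (hr : ∀ t, 0 < H t + deriv (deriv H) t) : ∀ᵐ c : ℝ × ℝ, Fix (fun R => |cntc H c R - area H * R ^ 2|) (7 / 12) 14 :=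
  ae_fix_of (k := 5) (fun {_} hH h5 v => ae_ev hH h5 v) (by norm_num) h5 hp hr

end Pool.Agent.Helper54.AC
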